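import Pool.Agent.Helper57.NS.Defs
import Pool.Agent.Helper60.NS.Shift
import Pool.Agent.Helper56.UG.Cv

/-!
# NS: the final bounds (K1, K2) from the stubs
-/

set_option autoImplicit false
open MeasureTheory Set Filter Topology
open Pool.Agent.Helper57.Zeta Pool.Agent.Helper57.LH Pool.Agent.Helper57.ED
open Pool.Agent.Helper54.LG (za zb qk SS MM)
open Pool.Agent.Helper93.UG (zc sp)
open Pool.Agent.Helper69.UG (XX NX)
open Pool.Agent.Helper57.TX (QX DP rs)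
open Pool.Agent.Helper57.NS

namespace Pool.Agent.Helper24.NS

/-- stub tot_thick -/
def TotThick (k : ℝ) : Prop := ∃ c C T₀ : ℝ, 0 < c ∧ 1 ≤ C ∧ ∀ T L : ℝ, T₀ ≤ T → C ≤ L →
    L ≤ Real.log T → Thick T (C * L ^ (-4 : ℝ)) (C * L ^ (-c)) (fun u => Tk k T L u - (Mk k L - Sk k T L u))

/-- stub out_thick -/
def OutThick (k : ℝ) : Prop := ∃ c C T₀ : ℝ, 0 < c ∧ 1 ≤ C ∧ ∀ T L : ℝ, T₀ ≤ T → C ≤ L →
    L ≤ Real.log T → Thick T (C * L ^ (-4 : ℝ)) (C * L ^ (-c)) (fun u => Ok k T L u - (Mk k L - Ak k L))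

/-- stub win_count -/
def WinCount (k : ℝ) : Prop := ∃ C T₀ : ℝ, 1 ≤ C ∧ ∀ T L : ℝ, T₀ ≤ T → C ≤ L → L ≤ Real.log T →
    volume {t : ℝ | t ∈ Icc (T / 2) (3 * T) ∧ L ^ (k / 4) < (zc (Wk k T L 2 t) : ℝ)} ≤ ENNReal.ofReal (C * L ^ (-4 : ℝ) * T)

/-- stub prime_up -/
def PrimeUp (k : ℝ) : Prop := ∃ C T₀ : ℝ, 1 ≤ C ∧ ∀ T L e : ℝ, T₀ ≤ T → C ≤ L → L ≤ Real.log T →
    0 < e → e ≤ 2 → Thick T (C * (L ^ (-((1 - 6 * k) * e ^ 2)) + L ^ (-4 : ℝ))) e (Sk k T L)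

/-- stub sl_dp -/
def SlDp (k : ℝ) : Prop := ∃ c C T₀ : ℝ, 0 < c ∧ 1 ≤ C ∧ ∀ T L : ℝ, T₀ ≤ T → C ≤ L →
    L ≤ Real.log T → ∃ E : Set ℝ, volume E ≤ ENNReal.ofReal (C * L ^ (-4 : ℝ) * T) ∧
    ∀ t ∈ Icc (T / 2) (3 * T), t ∉ E → ∀ u : ℝ, |u - t| ≤ sp T →
      |Sk k T L u - (DP (QX (Xk k T L)) (rk k T L) t).re| ≤ C * L ^ (-c)

/-- stub prime_low -/
def PrimeLow (k : ℝ) : Prop := ∃ C T₀ : ℝ, 1 ≤ C ∧ ∀ T L e : ℝ, T₀ ≤ T → C ≤ L → L ≤ Real.log T →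
    0 < e → e ≤ 2 → ENNReal.ofReal (1 / C * L ^ (-((1 + 30 * k) * e ^ 2)) * T) ≤
      volume {t : ℝ | T ≤ t ∧ t ≤ 2 * T ∧ e < |(DP (QX (Xk k T L)) (rk k T L) t).re|}

/-- stub palm -/
def Palm : Prop := ∀ q : ℕ, ∃ C T₀ : ℝ, 0 < C ∧ ∀ T : ℝ, T₀ ≤ T → ∀ (B : Set ℝ) (v : ℝ), 0 ≤ v →
    volume B ≤ ENNReal.ofReal (v * T) →
    (zc {g : ℝ | T ≤ g ∧ g ≤ 2 * T ∧ Icc g (g + sp T) ⊆ B} : ℝ) ≤ C * v ^ (1 - 1 / (q + 1) : ℝ) * (T * Real.log T)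

/-- stub bad_imp -/
def BadImp (k : ℝ) : Prop := ∃ c C : ℝ, 0 < c ∧ 1 ≤ C ∧ ∀ T L e t v : ℝ, 3 ≤ T → C ≤ L →
    |Ok k T L t - (Mk k L - Ak k L)| ≤ v → (zc (Wk k T L 1 t) : ℝ) ≤ L ^ (k / 4) → Bad k T L e t →
    e - v - C * L ^ (-c) < |Tk k T L t - Mk k L|

/-- stub bad_of -/
def BadOf (k : ℝ) : Prop := ∃ c C : ℝ, 0 < c ∧ 1 ≤ C ∧ ∀ (T L e t v : ℝ) (W : Set ℝ), 3 ≤ T →
    C ≤ L → |Ok k T L t - (Mk k L - Ak k L)| ≤ v → (zc (Wk k T L 1 t) : ℝ) ≤ L ^ (k / 4) →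
    W ⊆ Icc (-L ^ (k / 8)) (L ^ (k / 8)) → e + v + C * L ^ (-c) < |Tk k T L t - Mk k L| →
    e < |cnt T t W - prd k T L t W|

lemma sp_pos {T : ℝ} (hT : 1 < T) : 0 < sp T := by
  unfold sp
  have := Real.log_pos hT
  positivity

/-- the window around `u` lies in the doubled window around `t` -/
lemma win_sub {k T L t u : ℝ} (hk : 0 < k) (hT : 1 < T) (hL : 1 ≤ L) (hu : |u - t| ≤ sp T) :
    Wk k T L 1 u ⊆ Wk k T L 2 t := by
  have hs := sp_pos hT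
  have hl : 1 ≤ L ^ (k / 8) := Real.one_le_rpow hL (by positivity)
  have f2 := abs_le.1 hu
  have f3 : sp T ≤ L ^ (k / 8) * sp T := le_mul_of_one_le_left hs.le hl
  unfold Wk
  apply Icc_subset_Icc <;> nlinarith [f2.1, f2.2]

lemma win_le {k T L t u : ℝ} (hk : 0 < k) (hT : 1 < T) (hL : 1 ≤ L) (hu : |u - t| ≤ sp T) :
    (zc (Wk k T L 1 u) : ℝ) ≤ (zc (Wk k T L 2 t) : ℝ) := by
  exact_mod_cast Pool.Agent.Helper56.UG.zc_mono (win_sub hk hT hL hu) (J := Wk k T L 2 t) subset_rfl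

/-- powers of `L` -/
lemma pow_mono {L a b : ℝ} (hL : 1 ≤ L) (h : a ≤ b) : L ^ (-b) ≤ L ^ (-a) :=
  Real.rpow_le_rpow_of_exponent_le hL (by linarith)

/-- the thick bad set -/
theorem core {k : ℝ} (hk : 0 < k) (hk8 : k ≤ 1 / 8) (h1 : BadImp k) (h2 : TotThick k) (h3 : OutThick k) (h4 : WinCount k)
    (h5 : PrimeUp k) : ∃ C T₀ : ℝ, 1 ≤ C ∧ ∀ T L e : ℝ, T₀ ≤ T → C ≤ L → L ≤ Real.log T → 0 < e → e ≤ 1 →
      ∃ E : Set ℝ, volume E ≤ ENNReal.ofReal (C * L ^ (-((1 - 6 * k) * e ^ 2)) * T) ∧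
      ∀ t ∈ Icc (T / 2) (3 * T), ∀ u : ℝ, |u - t| ≤ sp T → Bad k T L e u → t ∈ E := by
  obtain ⟨c1, C1, hc1, hC1, H1⟩ := h1
  obtain ⟨c2, C2, T2, hc2, hC2, H2⟩ := h2
  obtain ⟨c3, C3, T3, hc3, hC3, H3⟩ := h3
  obtain ⟨C4, T4, hC4, H4⟩ := h4
  obtain ⟨C5, T5, hC5, H5⟩ := h5
  obtain ⟨c, hc⟩ : ∃ c : ℝ, c = min c1 (min c2 c3) := ⟨_, rfl⟩
  have hc0 : 0 < c := by rw [hc]; exact lt_min hc1 (lt_min hc2 hc3)
  have hcc1 : c ≤ c1 := by rw [hc]; exact min_le_left _ _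
  have hcc2 : c ≤ c2 := by rw [hc]; exact (min_le_right _ _).trans (min_le_left _ _)
  have hcc3 : c ≤ c3 := by rw [hc]; exact (min_le_right _ _).trans (min_le_right _ _)
  obtain ⟨D, hD⟩ : ∃ D : ℝ, D = C1 + C2 + C3 := ⟨_, rfl⟩
  have hD0 : 0 < D := by rw [hD]; linarith
  obtain ⟨K, hK, HK⟩ := Pool.Agent.Helper60.NS.shift hc0 hD0.le
  refine ⟨C1 + C2 + C3 + C4 + C5 * (K + 1) + 3 * K, max (max T2 T3) (max (max T4 T5) 3), ?_, ?_⟩
  · have : 0 ≤ C5 * (K + 1) := by positivity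
    linarith
  intro T L e hT hCL hLT he he1
  simp only [max_le_iff] at hT
  obtain ⟨⟨hTa, hTb⟩, ⟨hTc, hTd⟩, hTe⟩ := hT
  have hCK : 0 ≤ C5 * K := by positivity
  have hK0 : 0 < K := by linarith
  have hL1 : 1 ≤ L := by linarith
  have hL0 : 0 < L := by linarith
  have hT1 : 1 < T := by linarith
  have hT0 : 0 < T := by linarith
  obtain ⟨a, ha⟩ : ∃ a : ℝ, a = 1 - 6 * k := ⟨_, rfl⟩
  have ha0 : 0 ≤ a := by rw [ha]; linarith
  have ha1 : a ≤ 1 := by rw [ha]; linarith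
  rw [← ha]
  obtain ⟨P, hP⟩ : ∃ P : ℝ, P = L ^ (-(a * e ^ 2)) := ⟨_, rfl⟩
  have hP0 : 0 < P := by rw [hP]; positivity
  have he2 : a * e ^ 2 ≤ 1 := by
    have : e ^ 2 ≤ 1 := pow_le_one₀ he.le he1
    nlinarith
  have hP4 : L ^ (-4 : ℝ) ≤ P := by rw [hP]; exact pow_mono hL1 (by linarith)
  rw [← hP]
  have hDc : C1 * L ^ (-c1) + C2 * L ^ (-c2) + C3 * L ^ (-c3) ≤ D * L ^ (-c) := by
    have e1 := pow_mono hL1 hcc1
    have e2 := pow_mono hL1 hcc2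
    have e3 := pow_mono hL1 hcc3
    have g1 : C1 * L ^ (-c1) ≤ C1 * L ^ (-c) := by gcongr
    have g2 : C2 * L ^ (-c2) ≤ C2 * L ^ (-c) := by gcongr
    have g3 : C3 * L ^ (-c3) ≤ C3 * L ^ (-c) := by gcongr
    rw [hD]
    linarith
  by_cases hsm : e ≤ D * L ^ (-c)
  · -- trivial case
    refine ⟨Icc (T / 2) (3 * T), ?_, fun t ht _ _ _ => ht⟩
    rw [Real.volume_Icc]
    apply ENNReal.ofReal_le_ofReal
    have h6 := HK L a e 0 hL1 ha0 (by linarith) he.le (by linarith) le_rfl (by norm_num) (by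
      rw [sub_zero, abs_of_pos he]; exact hsm)
    rw [← hP] at h6
    have h7 : (1:ℝ) ≤ K * P := by
      refine le_trans (le_of_eq ?_) h6
      norm_num
    have h8 : 0 ≤ (C1 + C2 + C3 + C4 + C5 * (K + 1)) * P * T := by positivity
    nlinarith
  push Not at hsm
  obtain ⟨e', he'⟩ : ∃ e' : ℝ, e' = e - D * L ^ (-c) := ⟨_, rfl⟩
  have he'0 : 0 < e' := by rw [he']; linarith
  have hDL : 0 ≤ D * L ^ (-c) := by positivity
  have he'1 : e' ≤ 1 := by rw [he']; linarith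
  obtain ⟨E2, hE2, G2⟩ := H2 T L hTa (by linarith) hLT
  obtain ⟨E3, hE3, G3⟩ := H3 T L hTb (by linarith) hLT
  have hE4 := H4 T L hTc (by linarith) hLT
  obtain ⟨E5, hE5, G5⟩ := H5 T L e' hTd (by nlinarith) hLT he'0 (by linarith)
  obtain ⟨E4, hE4e⟩ : ∃ E4 : Set ℝ, E4 = {t : ℝ | t ∈ Icc (T / 2) (3 * T) ∧ L ^ (k / 4) < (zc (Wk k T L 2 t) : ℝ)} :=
    ⟨_, rfl⟩
  rw [← hE4e] at hE4
  refine ⟨(E2 ∪ E3) ∪ (E4 ∪ E5), ?_, ?_⟩
  · rw [← ha] at hE5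
    have h6 := HK L a e e' hL1 ha0 (by linarith) he.le (by linarith) he'0.le (by linarith) (by
      rw [he', sub_sub_cancel, abs_of_nonneg hDL])
    rw [← hP] at h6
    refine (measure_union_le _ _).trans ((add_le_add ((measure_union_le _ _).trans (add_le_add hE2 hE3))
      ((measure_union_le _ _).trans (add_le_add hE4 hE5))).trans ?_)
    rw [← ENNReal.ofReal_add (by positivity) (by positivity), ← ENNReal.ofReal_add (by positivity) (by positivity),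
      ← ENNReal.ofReal_add (by positivity) (by positivity)]
    apply ENNReal.ofReal_le_ofReal
    have g1 : C2 * L ^ (-4 : ℝ) * T ≤ C2 * P * T := by gcongr
    have g2 : C3 * L ^ (-4 : ℝ) * T ≤ C3 * P * T := by gcongr
    have g3 : C4 * L ^ (-4 : ℝ) * T ≤ C4 * P * T := by gcongr
    have g4 : C5 * (L ^ (-(a * e' ^ 2)) + L ^ (-4 : ℝ)) * T ≤ C5 * (K * P + P) * T := by gcongr
    have g5 : 0 ≤ (C1 + 3 * K) * P * T := by positivity
    nlinarith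
  · intro t ht u hu hB
    by_contra hcon
    simp only [mem_union, not_or] at hcon
    obtain ⟨⟨n2, n3⟩, n4, n5⟩ := hcon
    have m2 : |Tk k T L u - (Mk k L - Sk k T L u)| ≤ C2 * L ^ (-c2) := by
      by_contra hh
      push Not at hh
      exact n2 (G2 t ht u hu hh)
    have m3 : |Ok k T L u - (Mk k L - Ak k L)| ≤ C3 * L ^ (-c3) := by
      by_contra hh
      push Not at hh
      exact n3 (G3 t ht u hu hh)
    have m4 : (zc (Wk k T L 1 u) : ℝ) ≤ L ^ (k / 4) := by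
      refine (win_le hk hT1 hL1 hu).trans ?_
      by_contra hh
      push Not at hh
      exact n4 (by rw [hE4e]; exact ⟨ht, hh⟩)
    have m5 : |Sk k T L u| ≤ e' := by
      by_contra hh
      push Not at hh
      exact n5 (G5 t ht u hu hh)
    have m1 := H1 T L e u _ hTe (by nlinarith) m3 m4 hB
    have m6 : |Tk k T L u - Mk k L| ≤ |Tk k T L u - (Mk k L - Sk k T L u)| + |Sk k T L u| := by
      have : Tk k T L u - Mk k L = (Tk k T L u - (Mk k L - Sk k T L u)) + (-Sk k T L u) := by ring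
      rw [this]
      refine (abs_add_le _ _).trans ?_
      rw [abs_neg]
    linarith

/-- K1, upper bound -/
theorem final_up_of {k : ℝ} (hk : 0 < k) (hk8 : k ≤ 1 / 8) (h1 : BadImp k) (h2 : TotThick k) (h3 : OutThick k)
    (h4 : WinCount k) (h5 : PrimeUp k) : ∃ C T₀ : ℝ, 1 ≤ C ∧ ∀ T L e : ℝ, T₀ ≤ T → C ≤ L → L ≤ Real.log T →
    0 < e → e ≤ 1 → volume {t : ℝ | T ≤ t ∧ t ≤ 2 * T ∧ Bad k T L e t} ≤
      ENNReal.ofReal (C * L ^ (-((1 - 6 * k) * e ^ 2)) * T) := by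
  obtain ⟨C, T₀, hC, H⟩ := core hk hk8 h1 h2 h3 h4 h5
  refine ⟨C, max T₀ 3, hC, fun T L e hT hCL hLT he he1 => ?_⟩
  simp only [max_le_iff] at hT
  have hs := sp_pos (show 1 < T by linarith)
  obtain ⟨E, hE, hEt⟩ := H T L e hT.1 hCL hLT he he1
  refine (measure_mono ?_).trans hE
  rintro t ⟨ht1, ht2, ht3⟩
  exact hEt t ⟨by linarith, by linarith⟩ t (by simp [hs.le]) ht3

/-- K1, lower bound -/
theorem final_low_of {k : ℝ} (hk : 0 < k) (hk8 : k ≤ 1 / 16) (h1 : BadOf k) (h2 : TotThick k) (h3 : OutThick k)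
    (h4 : WinCount k) (h5 : SlDp k) (h6 : PrimeLow k) : ∃ C T₀ : ℝ, 1 ≤ C ∧ ∀ T L e : ℝ, T₀ ≤ T → C ≤ L →
    L ≤ Real.log T → 0 < e → e ≤ 1 → ENNReal.ofReal (1 / C * L ^ (-((1 + 30 * k) * e ^ 2)) * T) ≤
      volume {t : ℝ | T ≤ t ∧ t ≤ 2 * T ∧ ∀ W : Set ℝ, W ⊆ Icc (-L ^ (k / 8)) (L ^ (k / 8)) →
        e < |cnt T t W - prd k T L t W|} := by
  obtain ⟨c1, C1, hc1, hC1, H1⟩ := h1
  obtain ⟨c2, C2, T2, hc2, hC2, H2⟩ := h2
  obtain ⟨c3, C3, T3, hc3, hC3, H3⟩ := h3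
  obtain ⟨C4, T4, hC4, H4⟩ := h4
  obtain ⟨c5, C5, T5, hc5, hC5, H5⟩ := h5
  obtain ⟨C6, T6, hC6, H6⟩ := h6
  obtain ⟨c, hc⟩ : ∃ c : ℝ, c = min (min c1 c5) (min c2 c3) := ⟨_, rfl⟩
  have hc0 : 0 < c := by rw [hc]; exact lt_min (lt_min hc1 hc5) (lt_min hc2 hc3)
  have hcc1 : c ≤ c1 := by rw [hc]; exact (min_le_left _ _).trans (min_le_left _ _)
  have hcc5 : c ≤ c5 := by rw [hc]; exact (min_le_left _ _).trans (min_le_right _ _)
  have hcc2 : c ≤ c2 := by rw [hc]; exact (min_le_right _ _).trans (min_le_left _ _)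
  have hcc3 : c ≤ c3 := by rw [hc]; exact (min_le_right _ _).trans (min_le_right _ _)
  obtain ⟨D, hD⟩ : ∃ D : ℝ, D = C1 + C2 + C3 + C5 := ⟨_, rfl⟩
  have hD0 : 0 < D := by rw [hD]; linarith
  obtain ⟨K, hK, HK⟩ := Pool.Agent.Helper60.NS.shift hc0 hD0.le
  have hK0 : 0 < K := by linarith
  obtain ⟨S, hS⟩ : ∃ S : ℝ, S = C2 + C3 + C4 + C5 := ⟨_, rfl⟩
  have hS0 : 0 < S := by rw [hS]; linarith
  obtain ⟨Q, hQ⟩ : ∃ Q : ℝ, Q = 2 * C6 * K ^ 2 := ⟨_, rfl⟩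
  have hQ1 : 2 ≤ Q := by
    rw [hQ]
    have : 1 ≤ K ^ 2 := one_le_pow₀ hK
    nlinarith
  refine ⟨C1 + C2 + C3 + C4 + C5 + C6 + Q + S * Q + D ^ (1 / c), max (max (max T2 T3) (max T4 T5)) (max T6 3), ?_, ?_⟩
  · have : 0 ≤ S * Q := by positivity
    have : 0 ≤ D ^ (1 / c) := by positivity
    linarith
  intro T L e hT hCL hLT he he1
  simp only [max_le_iff] at hT
  obtain ⟨⟨⟨hTa, hTb⟩, hTc, hTd⟩, hTe, hTf⟩ := hT
  have hSQ : 0 ≤ S * Q := by positivity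
  have hDc0 : 0 ≤ D ^ (1 / c) := by positivity
  have hL1 : 1 ≤ L := by linarith
  have hL0 : 0 < L := by linarith
  have hT1 : 1 < T := by linarith
  have hT0 : 0 < T := by linarith
  have hs := sp_pos hT1
  obtain ⟨a, ha⟩ : ∃ a : ℝ, a = 1 + 30 * k := ⟨_, rfl⟩
  have ha0 : 0 ≤ a := by rw [ha]; linarith
  have ha3 : a ≤ 3 := by rw [ha]; linarith
  rw [← ha]
  obtain ⟨P, hP⟩ : ∃ P : ℝ, P = L ^ (-(a * e ^ 2)) := ⟨_, rfl⟩
  have hP0 : 0 < P := by rw [hP]; positivity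
  rw [← hP]
  have hDc : C1 * L ^ (-c1) + C2 * L ^ (-c2) + C3 * L ^ (-c3) + C5 * L ^ (-c5) ≤ D * L ^ (-c) := by
    have g1 : C1 * L ^ (-c1) ≤ C1 * L ^ (-c) := mul_le_mul_of_nonneg_left (pow_mono hL1 hcc1) (by linarith)
    have g2 : C2 * L ^ (-c2) ≤ C2 * L ^ (-c) := mul_le_mul_of_nonneg_left (pow_mono hL1 hcc2) (by linarith)
    have g3 : C3 * L ^ (-c3) ≤ C3 * L ^ (-c) := mul_le_mul_of_nonneg_left (pow_mono hL1 hcc3) (by linarith)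
    have g5 : C5 * L ^ (-c5) ≤ C5 * L ^ (-c) := mul_le_mul_of_nonneg_left (pow_mono hL1 hcc5) (by linarith)
    rw [hD]
    linarith
  have hDL : 0 < D * L ^ (-c) := by positivity
  have hDL1 : D * L ^ (-c) ≤ 1 := by
    have h7 : D ≤ L ^ c := by
      have : (D ^ (1 / c)) ^ c ≤ L ^ c := Real.rpow_le_rpow hDc0 (by linarith) hc0.le
      rwa [← Real.rpow_mul hD0.le, one_div, inv_mul_cancel₀ hc0.ne', Real.rpow_one] at this
    calc D * L ^ (-c) ≤ L ^ c * L ^ (-c) := by gcongr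
      _ = 1 := by rw [← Real.rpow_add hL0]; simp
  obtain ⟨e', he'⟩ : ∃ e' : ℝ, e' = e + D * L ^ (-c) := ⟨_, rfl⟩
  have he'0 : 0 < e' := by rw [he']; linarith
  have he'2 : e' ≤ 2 := by rw [he']; linarith
  obtain ⟨E2, hE2, G2⟩ := H2 T L hTa (by linarith) hLT
  obtain ⟨E3, hE3, G3⟩ := H3 T L hTb (by linarith) hLT
  have hE4 := H4 T L hTc (by linarith) hLT
  obtain ⟨E5, hE5, G5⟩ := H5 T L hTd (by linarith) hLT
  have hlow := H6 T L e' hTe (by linarith) hLT he'0 he'2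
  rw [← ha] at hlow
  obtain ⟨E4, hE4e⟩ : ∃ E4 : Set ℝ, E4 = {t : ℝ | t ∈ Icc (T / 2) (3 * T) ∧ L ^ (k / 4) < (zc (Wk k T L 2 t) : ℝ)} :=
    ⟨_, rfl⟩
  rw [← hE4e] at hE4
  obtain ⟨F, hF⟩ : ∃ F : Set ℝ, F = {t : ℝ | T ≤ t ∧ t ≤ 2 * T ∧ ∀ W : Set ℝ, W ⊆ Icc (-L ^ (k / 8)) (L ^ (k / 8)) →
        e < |cnt T t W - prd k T L t W|} := ⟨_, rfl⟩
  rw [← hF]
  have hsub : {t : ℝ | T ≤ t ∧ t ≤ 2 * T ∧ e' < |(DP (QX (Xk k T L)) (rk k T L) t).re|} ⊆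
      F ∪ ((E2 ∪ E3) ∪ (E4 ∪ E5)) := by
    rintro t ⟨ht1, ht2, ht3⟩
    by_contra hcon
    simp only [mem_union, not_or] at hcon
    obtain ⟨n1, ⟨n2, n3⟩, n4, n5⟩ := hcon
    have ht : t ∈ Icc (T / 2) (3 * T) := ⟨by linarith, by linarith⟩
    have hu : |t - t| ≤ sp T := by simp [hs.le]
    have m2 : |Tk k T L t - (Mk k L - Sk k T L t)| ≤ C2 * L ^ (-c2) := by
      by_contra hh
      push Not at hh
      exact n2 (G2 t ht t hu hh)
    have m3 : |Ok k T L t - (Mk k L - Ak k L)| ≤ C3 * L ^ (-c3) := by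
      by_contra hh
      push Not at hh
      exact n3 (G3 t ht t hu hh)
    have m4 : (zc (Wk k T L 1 t) : ℝ) ≤ L ^ (k / 4) := by
      refine (win_le hk hT1 hL1 hu).trans ?_
      by_contra hh
      push Not at hh
      exact n4 (by rw [hE4e]; exact ⟨ht, hh⟩)
    have m5 := G5 t ht n5 t hu
    have m6 : |(DP (QX (Xk k T L)) (rk k T L) t).re| ≤ |Tk k T L t - Mk k L| + |Tk k T L t - (Mk k L - Sk k T L t)| +
        |Sk k T L t - (DP (QX (Xk k T L)) (rk k T L) t).re| := by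
      have : (DP (QX (Xk k T L)) (rk k T L) t).re = (-(Tk k T L t - Mk k L)) + (Tk k T L t - (Mk k L - Sk k T L t)) +
        (-(Sk k T L t - (DP (QX (Xk k T L)) (rk k T L) t).re)) := by ring
      refine (le_of_eq (congrArg abs this)).trans ((abs_add_three _ _ _).trans ?_)
      rw [abs_neg, abs_neg]
    apply n1
    rw [hF]
    refine ⟨ht1, ht2, fun W hW => ?_⟩
    exact H1 T L e t _ W hTf (by linarith) m3 m4 hW (by linarith)
  have hvol : ENNReal.ofReal (1 / C6 * L ^ (-(a * e' ^ 2)) * T) ≤ volume F + ENNReal.ofReal (S * L ^ (-4 : ℝ) * T) := by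
    refine hlow.trans ((measure_mono hsub).trans ((measure_union_le _ _).trans ?_))
    refine add_le_add le_rfl ?_
    refine (measure_union_le _ _).trans ((add_le_add ((measure_union_le _ _).trans (add_le_add hE2 hE3))
      ((measure_union_le _ _).trans (add_le_add hE4 hE5))).trans (le_of_eq ?_))
    rw [← ENNReal.ofReal_add (by positivity) (by positivity), ← ENNReal.ofReal_add (by positivity) (by positivity),
      ← ENNReal.ofReal_add (by positivity) (by positivity)]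
    congr 1
    rw [hS]
    ring
  have h8 : P ≤ K ^ 2 * L ^ (-(a * e' ^ 2)) := by
    have h9 := HK L (a / 2) e' e hL1 (by linarith) (by linarith) he'0.le he'2 he.le (by linarith) (by
      rw [he', add_sub_cancel_left, abs_of_pos hDL])
    have h10 : L ^ (-(a * e ^ 2)) = (L ^ (-(a / 2 * e ^ 2))) ^ 2 := by
      rw [← Real.rpow_natCast (L ^ (-(a / 2 * e ^ 2))) 2, ← Real.rpow_mul hL0.le]
      congr 1
      push_cast
      ring
    have h11 : L ^ (-(a * e' ^ 2)) = (L ^ (-(a / 2 * e' ^ 2))) ^ 2 := by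
      rw [← Real.rpow_natCast (L ^ (-(a / 2 * e' ^ 2))) 2, ← Real.rpow_mul hL0.le]
      congr 1
      push_cast
      ring
    rw [hP, h10, h11, ← mul_pow]
    exact pow_le_pow_left₀ (by positivity) h9 2
  have h12 : S * L ^ (-4 : ℝ) ≤ 1 / Q * P := by
    have h13 : L ^ (-3 : ℝ) ≤ P := by
      rw [hP]
      apply pow_mono hL1
      have : e ^ 2 ≤ 1 := pow_le_one₀ he.le he1
      nlinarith
    have h14 : L ^ (-4 : ℝ) = L⁻¹ * L ^ (-3 : ℝ) := by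
      rw [← Real.rpow_neg_one, ← Real.rpow_add hL0]
      norm_num
    have h15 : S * Q ≤ L := by linarith
    have h16 : S * L⁻¹ ≤ 1 / Q := by
      rw [← div_eq_mul_inv, div_le_div_iff₀ hL0 (by linarith)]
      linarith
    calc S * L ^ (-4 : ℝ) = (S * L⁻¹) * L ^ (-3 : ℝ) := by rw [h14]; ring
      _ ≤ 1 / Q * P := by gcongr
  have h17 : 1 / C6 * L ^ (-(a * e' ^ 2)) ≥ 2 * (1 / Q * P) := by
    have h18 : 2 * (1 / Q * P) = 1 / C6 * ((1 / K ^ 2) * P) := by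
      rw [hQ]
      field_simp
    rw [h18]
    have h19 : (1 / K ^ 2) * P ≤ L ^ (-(a * e' ^ 2)) := by
      rw [one_div, inv_mul_le_iff₀ (by positivity)]
      exact h8
    exact mul_le_mul_of_nonneg_left h19 (by positivity)
  have h20 : ENNReal.ofReal (1 / Q * P * T) ≤ volume F := by
    have h21 : ENNReal.ofReal (1 / Q * P * T) + ENNReal.ofReal (S * L ^ (-4 : ℝ) * T) ≤
        volume F + ENNReal.ofReal (S * L ^ (-4 : ℝ) * T) := by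
      refine le_trans ?_ hvol
      rw [← ENNReal.ofReal_add (by positivity) (by positivity), ← add_mul]
      apply ENNReal.ofReal_le_ofReal
      apply mul_le_mul_of_nonneg_right _ hT0.le
      linarith
    exact (ENNReal.add_le_add_iff_right ENNReal.ofReal_ne_top).1 h21
  refine le_trans (ENNReal.ofReal_le_ofReal ?_) h20
  apply mul_le_mul_of_nonneg_right _ hT0.le
  apply mul_le_mul_of_nonneg_right _ hP0.le
  apply one_div_le_one_div_of_le (by linarith)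
  linarith

/-- K2: the ordinates -/
theorem final_g_of {k : ℝ} (hk : 0 < k) (hk8 : k ≤ 1 / 8) (h1 : BadImp k) (h2 : TotThick k) (h3 : OutThick k)
    (h4 : WinCount k) (h5 : PrimeUp k) (h6 : Palm) : ∃ C T₀ : ℝ, 1 ≤ C ∧ ∀ T L e : ℝ, T₀ ≤ T → C ≤ L → L ≤ Real.log T →
    0 < e → e ≤ 1 → (zc {g : ℝ | T ≤ g ∧ g ≤ 2 * T ∧ Bad k T L e g} : ℝ) ≤
      C * L ^ (-((1 - 7 * k) * e ^ 2)) * (T * Real.log T) := by
  obtain ⟨C, T₀, hC, H⟩ := core hk hk8 h1 h2 h3 h4 h5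
  obtain ⟨q, hq⟩ := exists_nat_ge (1 / k)
  obtain ⟨CP, TP, hCP, HP⟩ := h6 q
  have hq1 : 1 / ((q : ℝ) + 1) ≤ k := by
    rw [div_le_iff₀ (by positivity)]
    rw [div_le_iff₀ hk] at hq
    nlinarith
  have hq0 : 0 < 1 / ((q : ℝ) + 1) := by positivity
  obtain ⟨b, hb⟩ : ∃ b : ℝ, b = 1 - 1 / ((q : ℝ) + 1) := ⟨_, rfl⟩
  have hb0 : 0 ≤ b := by rw [hb]; linarith
  have hb1 : 1 - k ≤ b := by rw [hb]; linarith
  have hC0 : 0 < C := by linarith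
  refine ⟨max C (CP * C ^ b), max (max T₀ TP) (Real.exp 7), hC.trans (le_max_left _ _), ?_⟩
  intro T L e hT hCL hLT he he1
  simp only [max_le_iff] at hT hCL
  obtain ⟨⟨hT₀, hTP⟩, hTe⟩ := hT
  have he7 : (8:ℝ) ≤ Real.exp 7 := by
    have := Real.add_one_le_exp (7:ℝ)
    linarith
  have hT1 : 1 < T := by linarith
  have hT0 : 0 < T := by linarith
  have hlog : 7 ≤ Real.log T := by
    rw [Real.le_log_iff_exp_le hT0]
    exact hTe
  have hs := sp_pos hT1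
  have hs1 : sp T ≤ 1 := by
    unfold sp
    rw [div_le_one (by linarith)]
    have := Real.pi_lt_d2
    linarith
  have hL1 : 1 ≤ L := by linarith
  have hL0 : 0 < L := by linarith
  have hTL : 0 ≤ T * Real.log T := by positivity
  obtain ⟨E, hE, hEt⟩ := H T L e hT₀ hCL.1 hLT he he1
  have h7 : {g : ℝ | T ≤ g ∧ g ≤ 2 * T ∧ Bad k T L e g} ⊆ {g : ℝ | T ≤ g ∧ g ≤ 2 * T ∧ Icc g (g + sp T) ⊆ E} := by
    rintro g ⟨hg1, hg2, hg3⟩
    refine ⟨hg1, hg2, fun t ht => ?_⟩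
    refine hEt t ⟨by linarith [ht.1], by linarith [ht.2]⟩ g ?_ hg3
    rw [abs_le]
    constructor <;> linarith [ht.1, ht.2]
  have h8 : (zc {g : ℝ | T ≤ g ∧ g ≤ 2 * T ∧ Bad k T L e g} : ℝ) ≤
      (zc {g : ℝ | T ≤ g ∧ g ≤ 2 * T ∧ Icc g (g + sp T) ⊆ E} : ℝ) := by
    exact_mod_cast Pool.Agent.Helper56.UG.zc_mono h7 (J := {g : ℝ | T ≤ g ∧ g ≤ 2 * T ∧ Icc g (g + sp T) ⊆ E})
      (a := T) (b := 2 * T) fun g hg => ⟨hg.1, hg.2.1⟩
  refine h8.trans ((HP T hTP E (C * L ^ (-((1 - 6 * k) * e ^ 2))) (by positivity) hE).trans ?_)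
  apply mul_le_mul_of_nonneg_right _ hTL
  rw [← hb, Real.mul_rpow hC0.le (by positivity), ← Real.rpow_mul hL0.le, ← mul_assoc]
  have h9 : L ^ (-((1 - 6 * k) * e ^ 2) * b) ≤ L ^ (-((1 - 7 * k) * e ^ 2)) := by
    apply Real.rpow_le_rpow_of_exponent_le hL1
    have : 1 - 7 * k ≤ (1 - 6 * k) * b := by nlinarith
    have h10 : (1 - 7 * k) * e ^ 2 ≤ (1 - 6 * k) * b * e ^ 2 := mul_le_mul_of_nonneg_right this (by positivity)
    linarith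
  calc CP * C ^ b * L ^ (-((1 - 6 * k) * e ^ 2) * b) ≤ CP * C ^ b * L ^ (-((1 - 7 * k) * e ^ 2)) := by gcongr
    _ ≤ _ := by
        gcongr
        exact le_max_right _ _

end Pool.Agent.Helper24.NS
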